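import Pool.Agent.Helper5.NS.G2

/-! Row G3: a line bundle of slope exactly `m` is a simple object of the tilt. -/

namespace Pool.Agent.Helper6.NS

open CategoryTheory CategoryTheory.Limits CategoryTheory.Pretriangulated Module
open CategoryTheory.Triangulated
open Pool.Agent.Helper6.KE

universe v₁ u₁ v u w

namespace G3

section ab
variable {A : Type u₁} [Category.{v₁} A] [Abelian A]

/-- the preimage of a subobject of a quotient -/
theorem pull_exact {P E F Y : A} (a : P ⟶ E) (p : E ⟶ F) (w : a ≫ p = 0)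
    (hex : (ShortComplex.mk a p w).ShortExact) (m : Y ⟶ F) [Mono m] :
    ∃ (T' : A) (j : P ⟶ T') (s : T' ⟶ Y) (b : T' ⟶ E) (hw : j ≫ s = 0),
      (ShortComplex.mk j s hw).ShortExact ∧ Mono b ∧ Epi s := by
  have ha : Mono a := hex.mono_f
  have hp : Epi p := hex.epi_g
  let T' := pullback p m
  have w1 : a ≫ p = (0 : P ⟶ Y) ≫ m := by rw [zero_comp]; exact w
  let j : P ⟶ T' := pullback.lift a 0 w1
  have hj1 : j ≫ pullback.fst p m = a := pullback.lift_fst _ _ _
  have hj2 : j ≫ pullback.snd p m = 0 := pullback.lift_snd _ _ _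
  have hmj : Mono j := by
    have : Mono (j ≫ pullback.fst p m) := by rw [hj1]; exact ha
    exact mono_of_mono j (pullback.fst p m)
  have hes : Epi (pullback.snd p m) := inferInstance
  have hmf : Mono (pullback.fst p m) := inferInstance
  have hker : IsLimit (KernelFork.ofι j hj2) := by
    refine KernelFork.IsLimit.ofι' j hj2 ?_
    intro W k hk
    have h1 : (k ≫ pullback.fst p m) ≫ p = 0 := by
      rw [Category.assoc, pullback.condition, ← Category.assoc, hk, zero_comp]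
    refine ⟨hex.exact.lift (k ≫ pullback.fst p m) h1, ?_⟩
    have h2 : hex.exact.lift (k ≫ pullback.fst p m) h1 ≫ a = k ≫ pullback.fst p m :=
      hex.exact.lift_f _ h1
    rw [← cancel_mono (pullback.fst p m), Category.assoc, hj1]
    exact h2
  exact ⟨T', j, pullback.snd p m, pullback.fst p m, hj2,
    ShortComplex.ShortExact.mk' (ShortComplex.exact_of_f_is_kernel _ hker) hmj hes, hmf, hes⟩

end ab

variable {C : Type u} [Category.{v} C] [Preadditive C] [HasZeroObject C] [HasShift C ℤ]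
  [∀ n : ℤ, (shiftFunctor C n).Additive] [Pretriangulated C]
  {K : Type w} [Field K] [Linear K C] [∀ n : ℤ, (shiftFunctor C n).Linear K]
  {A : Type u₁} [Category.{v₁} A] [Abelian A]

omit [∀ n : ℤ, (shiftFunctor C n).Linear K] in
theorem adt_r (X : Unnodal (C := C) K A) : G2.Adt X.r := by
  intro S hS
  obtain ⟨δ, hδ⟩ := X.S.exact S hS
  exact X.N.rk_add _ hδ

omit [∀ n : ℤ, (shiftFunctor C n).Linear K] in
theorem adt_z (X : Unnodal (C := C) K A) (h : Fin 10 → ℤ) (m : ℤ) : G2.Adt (X.z h m) := by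
  intro S hS
  obtain ⟨δ, hδ⟩ := X.S.exact S hS
  have h1 : X.N.rk (X.S.ι.obj S.X₂) = X.N.rk (X.S.ι.obj S.X₁) + X.N.rk (X.S.ι.obj S.X₃) :=
    X.N.rk_add _ hδ
  have h2 : X.N.c₁ (X.S.ι.obj S.X₂) = X.N.c₁ (X.S.ι.obj S.X₁) + X.N.c₁ (X.S.ι.obj S.X₃) :=
    X.N.c₁_add _ hδ
  unfold Unnodal.z
  rw [h1, h2, map_add]
  ring

omit [∀ n : ℤ, (shiftFunctor C n).Linear K] in
theorem z_nonneg (X : Unnodal (C := C) K A) (h : Fin 10 → ℤ) (hh : h ∈ X.Ample) (m : ℤ) (E : A)
    (hE : X.r E = 0) : 0 ≤ X.z h m E := by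
  have h1 := X.deg_nonneg h hh E hE
  have h2 : X.N.rk (X.S.ι.obj E) = 0 := hE
  unfold Unnodal.z
  rw [h2, mul_zero, sub_zero]
  exact h1

omit [∀ n : ℤ, (shiftFunctor C n).Linear K] in
/-- a line bundle of slope `m` is in the torsion free class -/
theorem free_line (X : Unnodal (C := C) K A) (h : Fin 10 → ℤ) (hh : h ∈ X.Ample) (m : ℤ)
    (L : A) (hL : X.IsLine L) (hm : X.z h m L = 0) : FreeCl X.r (X.z h m) L := by
  intro L' f hf hL'
  have h1 : 0 < X.r L' := hL.torsionFree L' f hf hL'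
  have h2 := (adt_r X).mono f
  have h3 := (adt_z X h m).mono f
  have h4 : X.r L = 1 := hL.rk_one
  have h5 : 0 ≤ X.r (cokernel f) := X.rk_nonneg _
  have h6 : X.r (cokernel f) = 0 := by omega
  have h7 := z_nonneg X h hh m _ h6
  exact ⟨h1, by omega⟩

/-- the main point -/
theorem star (X : Unnodal (C := C) K A) (h : Fin 10 → ℤ) (hh : h ∈ X.Ample) (m : ℤ)
    (L : A) (hL : X.IsLine L) (hm : X.z h m L = 0) (Y : C)
    (hY : ∀ F : A, FreeCl X.r (X.z h m) F → HV Y (X.S.ι.obj F) (-1))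
    (f : Y ⟶ X.S.ι.obj L) (hf : f ≠ 0) {G : A} (hG : FreeCl X.r (X.z h m) G) (g : L ⟶ G)
    (hg : f ≫ X.S.ι.map g = 0) : g = 0 := by
  by_contra hg0
  -- `g` is a monomorphism
  have hmono : Mono g := by
    apply Preadditive.mono_of_isZero_kernel
    by_contra hk
    have h1 : 0 < X.r (kernel g) := hL.torsionFree _ (kernel.ι g) inferInstance hk
    have h2 := (adt_r X).mono (kernel.ι g)
    have h4 : X.r L = 1 := hL.rk_one
    have h5 : ¬ IsZero (Abelian.coimage g) := by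
      intro h6
      apply hg0
      rw [← Abelian.coimage.fac g, h6.eq_of_src (Abelian.factorThruCoimage g) 0, comp_zero]
    have h6 := (hG (Abelian.coimage g) (Abelian.factorThruCoimage g) inferInstance h5).1
    have h7 : X.r (cokernel (kernel.ι g)) = X.r (Abelian.coimage g) := rfl
    omega
  let S : ShortComplex A := ShortComplex.mk g (cokernel.π g) (cokernel.condition g)
  have hS : S.ShortExact := by
    refine ShortComplex.ShortExact.mk' ?_ (by dsimp [S]; infer_instance)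
      (by dsimp [S]; infer_instance)
    exact ShortComplex.exact_of_g_is_cokernel _ (cokernelIsCokernel g)
  obtain ⟨δ, hδ⟩ := X.S.exact S hS
  have hf1 : f⟦(1 : ℤ)⟧' ≫ (X.S.ι.map g)⟦(1 : ℤ)⟧' = 0 := by
    rw [← Functor.map_comp, hg, Functor.map_zero]
  obtain ⟨f', hf'⟩ := Triangle.coyoneda_exact₁ _ hδ (f⟦(1 : ℤ)⟧') hf1
  -- the torsion pair of the cokernel
  obtain ⟨T', F', i, q, w, hex, hT', hF'⟩ := torsion_pair X.S.noeth X.r (X.z h m)
    (adt_r X) (adt_z X h m) (fun E => X.rk_nonneg E) (fun E hE => z_nonneg X h hh m E hE)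
    (cokernel g)
  obtain ⟨δ', hδ'⟩ := X.S.exact _ hex
  have hv : HV (Y⟦(1 : ℤ)⟧) (X.S.ι.obj F') 0 := (hY F' hF').to_shift 1 0 (by omega)
  have h1 : f' ≫ X.S.ι.map q = 0 := by
    have h2 := hv ((f' ≫ X.S.ι.map q) ≫ (shiftFunctorZero C ℤ).inv.app _)
    rw [← cancel_mono ((shiftFunctorZero C ℤ).inv.app (X.S.ι.obj F')), h2, zero_comp]
  obtain ⟨f'', hf''⟩ := Triangle.coyoneda_exact₂ _ hδ' f' h1
  have hz : X.S.ι.map i ≫ δ = 0 := by
    by_cases h0 : IsZero T'
    · have : i = 0 := h0.eq_of_src _ _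
      rw [this, Functor.map_zero, zero_comp]
    · have hmi : Mono i := hex.mono_f
      obtain ⟨I, j, s, b, hw, hexI, hb, hs⟩ := pull_exact _ _ _ hS i
      have hI : ¬ IsZero I := fun hI0 => h0 (IsZero.of_epi s hI0)
      have a1 := (adt_z X h m) _ hexI
      simp only at a1
      have a2 := (hG I b hb hI).2
      have a3 := hT' T' (𝟙 T') inferInstance h0
      have a4 : X.z h m L = 0 := hm
      have a5 : X.r T' = 0 := by
        have a6 : X.z h m S.X₁ = X.z h m L := rfl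
        omega
      have a6 := z_nonneg X h hh m T' a5
      have a7 : X.z h m T' = 0 := by
        have a6 : X.z h m S.X₁ = X.z h m L := rfl
        omega
      refine hL.ext_zero T' a5 ⟨h, hh, ?_⟩ _
      have a8 : X.N.rk (X.S.ι.obj T') = 0 := a5
      unfold Unnodal.z at a7
      rw [a8, mul_zero, sub_zero] at a7
      exact a7
  have e1 : f⟦(1 : ℤ)⟧' = f' ≫ δ := hf'
  have e2 : f' = f'' ≫ X.S.ι.map i := hf''
  apply hf
  apply (shiftFunctor C (1 : ℤ)).map_injective
  rw [Functor.map_zero]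
  refine e1.trans ?_
  rw [e2]
  exact (Category.assoc _ _ _).trans ((congrArg (fun t => f'' ≫ t) hz).trans comp_zero)

end G3

open G3

variable {C : Type u} [Category.{v} C] [Preadditive C] [HasZeroObject C] [HasShift C ℤ]
  [∀ n : ℤ, (shiftFunctor C n).Additive] [Pretriangulated C]
  {K : Type w} [Field K] [Linear K C] [∀ n : ℤ, (shiftFunctor C n).Linear K]
  {A : Type u₁} [Category.{v₁} A] [Abelian A]

/-- G3: a line bundle of degree exactly `m` is a simple object (placed in degree 1) of the tilt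
at slope `m`. -/
theorem tilt_simple (X : Unnodal (C := C) K A) (h : Fin 10 → ℤ) (hh : h ∈ X.Ample) (m : ℤ)
    (t' : TStructure C)
    (ht' : ∀ Y n, t'.IsLE Y n ↔ X.S.t.IsLE Y n ∧
      ∀ F : A, FreeCl X.r (X.z h m) F → HV Y (X.S.ι.obj F) (-n))
    (L : A) (hL : X.IsLine L) (hm : X.z h m L = 0) : Smp t' (X.S.ι.obj L) 1 := by
  have heart : ∀ E : A, X.S.t.IsLE (X.S.ι.obj E) 0 ∧ X.S.t.IsGE (X.S.ι.obj E) 0 := by
    intro E
    exact (X.S.t.mem_heart_iff _).1 ((X.S.heart_iff _).2 ⟨E, ⟨Iso.refl _⟩⟩)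
  have hLE := (heart L).1
  refine ⟨?_, ?_, ?_⟩
  · rw [ht']
    refine ⟨X.S.t.isLE_of_le _ 0 1 (by omega), ?_⟩
    intro F _ f
    have h1 := (heart F).2
    have h2 : X.S.t.IsGE ((X.S.ι.obj F)⟦(-1 : ℤ)⟧) 1 := X.S.t.isGE_shift _ 0 (-1) 1 (by omega)
    exact X.S.t.zero f 0 1 (by omega)
  · rw [t'.isGE_iff_orthogonal 0 1 (by omega)]
    intro Y f hY
    rw [ht'] at hY
    have h1 := hY.2 L (free_line X h hh m L hL hm)
    have h2 := h1 (f ≫ (shiftFunctorZero C ℤ).inv.app _ ≫ eqToHom (by simp))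
    rw [← Category.assoc] at h2
    have h3 : f ≫ (shiftFunctorZero C ℤ).inv.app (X.S.ι.obj L) = 0 := by
      have := (Preadditive.IsIso.comp_right_eq_zero _ _).1 h2
      exact this
    exact (Preadditive.IsIso.comp_right_eq_zero _ _).1 h3
  · intro Y F i f δ hT hY hf
    rw [ht'] at hY ⊢
    constructor
    · have h1 := hY.1
      have h2 : X.S.t.IsLE ((X.S.ι.obj L)⟦(-1 : ℤ)⟧) 1 := X.S.t.isLE_shift _ 0 (-1) 1 (by omega)
      exact X.S.t.isLE₂ _ (inv_rot_of_distTriang _ hT) 1 h2 h1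
    · intro G hG u
      let e : ((X.S.ι.obj G)⟦(-1 : ℤ)⟧)⟦(1 : ℤ)⟧ ≅ X.S.ι.obj G :=
        (shiftFunctorCompIsoId C (-1) 1 (by norm_num)).app _
      obtain ⟨g, hg⟩ := X.S.ι.map_surjective (δ ≫ u⟦(1 : ℤ)⟧' ≫ e.hom)
      have hfδ : f ≫ δ = 0 := comp_distTriang_mor_zero₂₃ _ hT
      have h1 : f ≫ X.S.ι.map g = 0 := by
        rw [hg, ← Category.assoc, hfδ, zero_comp]
      have h2 := star X h hh m L hL hm Y hY.2 f hf hG g h1
      have h3 : δ ≫ u⟦(1 : ℤ)⟧' = 0 := by
        rw [h2, Functor.map_zero] at hg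
        rw [← Category.assoc] at hg
        exact (Preadditive.IsIso.comp_right_eq_zero _ _).1 hg.symm
      obtain ⟨v, hv⟩ := Triangle.yoneda_exact₂ _
        (rot_of_distTriang _ (rot_of_distTriang _ hT)) (u⟦(1 : ℤ)⟧') h3
      have h4 : HV (Y⟦(1 : ℤ)⟧) ((X.S.ι.obj G)⟦(-1 : ℤ)⟧) 1 := by
        have h5 : HV Y ((X.S.ι.obj G)⟦(-1 : ℤ)⟧) 0 := (hY.2 G hG).shift_right (-1) 0 (by omega)
        exact h5.to_shift 1 1 (by omega)
      apply (shiftFunctor C (1 : ℤ)).map_injective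
      rw [Functor.map_zero]
      have h5 : v = 0 := h4 v
      refine hv.trans ?_
      rw [h5]
      exact comp_zero

end Pool.Agent.Helper6.NS
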