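import Pool.Agent.Helper6.NS.Geo

/-! Row G2: the torsion pair of a slope in a noetherian abelian category. -/

namespace Pool.Agent.Helper6.NS

open CategoryTheory CategoryTheory.Limits CategoryTheory.Pretriangulated Module
open CategoryTheory.Triangulated
open Pool.Agent.Helper6.KE

universe v₁ u₁

variable {A : Type u₁} [Category.{v₁} A] [Abelian A]

namespace G2

/-- additive functions -/
def Adt (a : A → ℤ) : Prop := ∀ S : ShortComplex A, S.ShortExact → a S.X₂ = a S.X₁ + a S.X₃

lemma Adt.zero {a : A → ℤ} (ha : Adt a) {X : A} (h : IsZero X) : a X = 0 := by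
  have h1 : (ShortComplex.mk (𝟙 X) (0 : X ⟶ X) (by simp)).ShortExact := by
    have e1 : Mono (𝟙 X) := inferInstance
    have e2 : Epi (0 : X ⟶ X) := ⟨fun g h' _ => h.eq_of_src _ _⟩
    refine ShortComplex.ShortExact.mk' ?_ e1 e2
    exact ShortComplex.exact_of_isZero_X₂ _ h
  have := ha _ h1
  simp only at this
  omega

lemma Adt.mono {a : A → ℤ} (ha : Adt a) {X Y : A} (i : X ⟶ Y) [Mono i] :
    a Y = a X + a (cokernel i) := by
  refine ha (ShortComplex.mk i (cokernel.π i) (cokernel.condition i)) ?_
  refine ShortComplex.ShortExact.mk' ?_ (by dsimp; infer_instance) (by dsimp; infer_instance)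
  exact ShortComplex.exact_of_g_is_cokernel _ (cokernelIsCokernel i)

lemma Adt.epi {a : A → ℤ} (ha : Adt a) {X Y : A} (q : X ⟶ Y) [Epi q] :
    a X = a (kernel q) + a Y := by
  refine ha (ShortComplex.mk (kernel.ι q) q (kernel.condition q)) ?_
  refine ShortComplex.ShortExact.mk' ?_ (by dsimp; infer_instance) (by dsimp; infer_instance)
  exact ShortComplex.exact_of_f_is_kernel _ (kernelIsKernel q)

end G2

open G2

/-- G2a -/
theorem tor_free_zero (r z : A → ℤ) {T F : A} (hT : TorCl r z T) (hF : FreeCl r z F)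
    (f : T ⟶ F) : f = 0 := by
  by_contra hf
  have hI : ¬ IsZero (Abelian.image f) := by
    intro h
    apply hf
    rw [← Abelian.image.fac f, h.eq_of_tgt (Abelian.factorThruImage f) 0, zero_comp]
  have h1 := hT _ (Abelian.factorThruImage f) inferInstance hI
  have h2 := hF _ (Abelian.image.ι f) inferInstance hI
  omega

/-- torsion classes are closed under extensions -/
theorem tor_ext {r z : A → ℤ} (hr : Adt r) (hz : Adt z) (hr0 : ∀ E, 0 ≤ r E)
    (hz0 : ∀ E, r E = 0 → 0 ≤ z E) {T T' F : A} (j : T ⟶ T') (s : T' ⟶ F) (w : j ≫ s = 0)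
    (hex : (ShortComplex.mk j s w).ShortExact) (hT : TorCl r z T) (hF : TorCl r z F) :
    TorCl r z T' := by
  intro Q q hq hQ
  let m := Abelian.image.ι (j ≫ q)
  let e := Abelian.factorThruImage (j ≫ q)
  have hem : e ≫ m = j ≫ q := Abelian.image.fac (j ≫ q)
  have h1 : j ≫ (q ≫ cokernel.π m) = 0 := by
    calc j ≫ (q ≫ cokernel.π m) = (j ≫ q) ≫ cokernel.π m := (Category.assoc _ _ _).symm
      _ = (e ≫ m) ≫ cokernel.π m := congrArg (fun g => g ≫ cokernel.π m) hem.symm
      _ = 0 := by rw [Category.assoc, cokernel.condition, comp_zero]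
  have hes : Epi s := hex.epi_g
  let d : F ⟶ cokernel m := hex.exact.desc (q ≫ cokernel.π m) h1
  have hd : s ≫ d = q ≫ cokernel.π m := hex.exact.g_desc _ h1
  have hed : Epi d := by
    have : Epi (s ≫ d) := by rw [hd]; exact epi_comp _ _
    exact epi_of_epi s d
  have a1 := hr.mono m
  have a2 := hz.mono m
  by_cases hI : IsZero (Abelian.image (j ≫ q))
  · have b1 := hr.zero hI
    have b2 := hz.zero hI
    by_cases hR : IsZero (cokernel m)
    · have c1 := hr.zero hR
      left
      omega
    · have c := hF _ d hed hR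
      omega
  · have b := hT _ e inferInstance hI
    by_cases hR : IsZero (cokernel m)
    · have c1 := hr.zero hR
      have c2 := hz.zero hR
      omega
    · have c := hF _ d hed hR
      have d1 := hz0 (Abelian.image (j ≫ q))
      have d2 := hz0 (cokernel m)
      have d3 := hr0 (Abelian.image (j ≫ q))
      have d4 := hr0 (cokernel m)
      omega

/-- a bad object contains a torsion object -/
theorem bad_tor {r z : A → ℤ} (hr : Adt r) (hz : Adt z) (hr0 : ∀ E, 0 ≤ r E)
    (hz0 : ∀ E, r E = 0 → 0 ≤ z E) (n : ℕ) : ∀ X : A, r X = n → ¬ IsZero X →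
    (r X = 0 ∨ 0 < z X) → ∃ (Y : A) (f : Y ⟶ X), Mono f ∧ ¬ IsZero Y ∧ TorCl r z Y := by
  induction n using Nat.strong_induction_on with
  | _ n ih =>
    intro X hX hX0 hb
    by_cases hT : TorCl r z X
    · exact ⟨X, 𝟙 X, inferInstance, hX0, hT⟩
    · unfold TorCl at hT
      push Not at hT
      obtain ⟨Q, q, hq, hQ, h1, h2⟩ := hT
      have a1 := hr.epi q
      have a2 := hz.epi q
      have a3 := hr0 (kernel q)
      have a4 := hr0 Q
      have hzX : 0 < z X := by
        rcases hb with h | h
        · exfalso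
          omega
        · exact h
      have hK : ¬ IsZero (kernel q) := by
        intro h
        have := hz.zero h
        omega
      obtain ⟨m, hm⟩ : ∃ m : ℕ, r (kernel q) = m := ⟨(r (kernel q)).toNat, by omega⟩
      obtain ⟨Y, f, hf, hY, hYT⟩ := ih m (by omega) (kernel q) hm hK (Or.inr (by omega))
      exact ⟨Y, f ≫ kernel.ι q, mono_comp _ _, hY, hYT⟩

/-- G2b: the torsion pair, for a noetherian abelian category. -/
theorem torsion_pair (noeth : ∀ E : A, IsNoetherianObject E) (r z : A → ℤ)
    (hr : ∀ S : ShortComplex A, S.ShortExact → r S.X₂ = r S.X₁ + r S.X₃)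
    (hz : ∀ S : ShortComplex A, S.ShortExact → z S.X₂ = z S.X₁ + z S.X₃)
    (hr0 : ∀ E, 0 ≤ r E) (hz0 : ∀ E, r E = 0 → 0 ≤ z E) (E : A) :
    ∃ (T F : A) (i : T ⟶ E) (q : E ⟶ F) (w : i ≫ q = 0),
      (ShortComplex.mk i q w).ShortExact ∧ TorCl r z T ∧ FreeCl r z F := by
  have hE := noeth E
  have hwf : WellFounded ((· > ·) : Subobject E → Subobject E → Prop) :=
    (inferInstance : WellFoundedGT (Subobject E)).wf
  obtain ⟨P, hP, hmax⟩ := hwf.has_min {P : Subobject E | TorCl r z (P : A)} ⟨⊥, by
    intro Q q hq hQ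
    exfalso
    apply hQ
    have h0 : IsZero ((⊥ : Subobject E) : A) :=
      (isZero_zero A).of_iso Subobject.botCoeIsoZero
    exact IsZero.of_epi q h0⟩
  have hP' : TorCl r z (P : A) := hP
  let p := cokernel.π P.arrow
  have hex0 : (ShortComplex.mk P.arrow p (cokernel.condition _)).ShortExact := by
    refine ShortComplex.ShortExact.mk' ?_ (by dsimp; infer_instance) (by dsimp [p]; infer_instance)
    exact ShortComplex.exact_of_g_is_cokernel _ (cokernelIsCokernel P.arrow)
  refine ⟨(P : A), cokernel P.arrow, P.arrow, p, cokernel.condition _, hex0, hP', ?_⟩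
  intro F' f hf hF'
  by_contra hcon
  have hb : r F' = 0 ∨ 0 < z F' := by
    have := hr0 F'
    by_contra h
    push Not at h
    apply hcon
    constructor
    · omega
    · exact h.2
  obtain ⟨n, hn⟩ : ∃ n : ℕ, r F' = n := ⟨(r F').toNat, by have := hr0 F'; omega⟩
  obtain ⟨Y, g, hg, hY, hYT⟩ := bad_tor hr hz hr0 hz0 n F' hn hF' hb
  let m := g ≫ f
  have hm : Mono m := mono_comp _ _
  -- the preimage of `Y`
  let T' := pullback p m
  have w1 : P.arrow ≫ p = (0 : (P : A) ⟶ Y) ≫ m := by rw [zero_comp]; exact cokernel.condition _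
  let j : (P : A) ⟶ T' := pullback.lift P.arrow 0 w1
  have hj1 : j ≫ pullback.fst p m = P.arrow := pullback.lift_fst _ _ _
  have hj2 : j ≫ pullback.snd p m = 0 := pullback.lift_snd _ _ _
  have hmj : Mono j := by
    have : Mono (j ≫ pullback.fst p m) := by rw [hj1]; infer_instance
    exact mono_of_mono j (pullback.fst p m)
  have hes : Epi (pullback.snd p m) := by
    have : Epi p := by dsimp [p]; infer_instance
    infer_instance
  have hmf : Mono (pullback.fst p m) := inferInstance
  have hker : IsLimit (KernelFork.ofι j hj2) := by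
    refine KernelFork.IsLimit.ofι' j hj2 ?_
    intro W k hk
    have h1 : (k ≫ pullback.fst p m) ≫ p = 0 := by
      rw [Category.assoc, pullback.condition, ← Category.assoc, hk, zero_comp]
    have hmono : Mono P.arrow := inferInstance
    refine ⟨hex0.exact.lift (k ≫ pullback.fst p m) h1, ?_⟩
    have h2 : hex0.exact.lift (k ≫ pullback.fst p m) h1 ≫ P.arrow = k ≫ pullback.fst p m :=
      hex0.exact.lift_f _ h1
    rw [← cancel_mono (pullback.fst p m), Category.assoc, hj1]
    exact h2
  have hex : (ShortComplex.mk j (pullback.snd p m) hj2).ShortExact :=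
    ShortComplex.ShortExact.mk' (ShortComplex.exact_of_f_is_kernel _ hker) hmj hes
  have hT' : TorCl r z T' := tor_ext hr hz hr0 hz0 j (pullback.snd p m) hj2 hex hP' hYT
  -- a larger subobject
  let P' : Subobject E := Subobject.mk (pullback.fst p m)
  have hP'1 : TorCl r z (P' : A) := by
    intro Q q hq hQ
    refine hT' Q ((Subobject.underlyingIso (pullback.fst p m)).inv ≫ q) ?_ hQ
    exact epi_comp _ _
  have hle : P ≤ P' := Subobject.le_mk_of_comm j hj1
  refine hmax P' hP'1 (lt_of_le_of_ne hle ?_)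
  intro heq
  -- then `j` is an epimorphism
  apply hY
  have h3 : ∃ u : T' ⟶ (P : A), u ≫ P.arrow = pullback.fst p m := by
    have hle' : P' ≤ P := heq.ge
    refine ⟨(Subobject.underlyingIso (pullback.fst p m)).inv ≫ Subobject.ofLE P' P hle', ?_⟩
    rw [Category.assoc, Subobject.ofLE_arrow]
    exact Subobject.underlyingIso_arrow _
  obtain ⟨u, hu⟩ := h3
  have h4 : pullback.snd p m ≫ m = 0 := by
    rw [← pullback.condition, ← hu, Category.assoc, cokernel.condition, comp_zero]
  have h5 : pullback.snd p m = 0 := by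
    rw [← cancel_mono m, h4, zero_comp]
  exact IsZero.of_epi_eq_zero _ h5

end Pool.Agent.Helper6.NS
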